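import Pool.Agent.Helper1.TE.Goals4

/-!
PROJECT TE, packet TE-BPS: the size of the branching program.
-/

namespace Pool.Agent.Helper83.TE

open Pool.Agent.Helper1.TE
open Finset

/-- `clog 2 k ≤ 3 log k`. -/
theorem clog_le (k : ℕ) (hk : 2 ≤ k) : (Nat.clog 2 k : ℝ) ≤ 3 * Real.log k := by
  have h2 : (0.6931471803 : ℝ) < Real.log 2 := Real.log_two_gt_d9
  have hk' : (2 : ℝ) ≤ k := by exact_mod_cast hk
  have hL : Real.log 2 ≤ Real.log k := Real.log_le_log (by norm_num) hk'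
  have h1 : Nat.clog 2 k ≤ Nat.log 2 k + 1 := by
    apply Nat.clog_le_of_le_pow
    exact (Nat.lt_pow_succ_log_self (by norm_num) k).le
  have h3 : (2 : ℕ) ^ Nat.log 2 k ≤ k := Nat.pow_log_le_self 2 (by omega)
  have h4 : (2 : ℝ) ^ Nat.log 2 k ≤ k := by exact_mod_cast h3
  have h5 : (Nat.log 2 k : ℝ) * Real.log 2 ≤ Real.log k := by
    rw [← Real.log_pow]
    exact Real.log_le_log (by positivity) h4
  have h6 : (Nat.clog 2 k : ℝ) ≤ Nat.log 2 k + 1 := by exact_mod_cast h1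
  have h7 : (0 : ℝ) ≤ (Nat.log 2 k : ℝ) := Nat.cast_nonneg _
  nlinarith

theorem sqrt_bound (h L M x : ℝ) (hh : 0 ≤ h) (hL : 0 ≤ L) (hM : 0 ≤ M)
    (hx : x ≤ 3 * (h * L * M) + 4 * (h * L)) :
    √x ≤ 2 * √(h * L * M) + (h + L) := by
  have h1 : √x ≤ √(3 * (h * L * M) + 4 * (h * L)) := Real.sqrt_le_sqrt hx
  refine h1.trans ?_
  have hs := Real.sqrt_nonneg (h * L * M)
  have hsq : √(h * L * M) ^ 2 = h * L * M := Real.sq_sqrt (by positivity)
  apply Real.sqrt_le_iff.2
  constructor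
  · positivity
  · nlinarith [sq_nonneg (h - L), mul_nonneg hs (add_nonneg hh hL)]

theorem gBPS : GoalBPS := by
  rintro ⟨C, hC⟩
  refine ⟨4 + 12 * |C|, fun h k hh hk => ?_⟩
  set b := Nat.clog 2 k with hb
  have hb1 : 1 ≤ b := Nat.clog_pos (by norm_num) hk
  have hS := hC h b hh hb1
  set S := SpB h b with hSdef
  set L := Real.log k with hLdef
  have hk' : (2 : ℝ) ≤ k := by exact_mod_cast hk
  have hL0 : 0 < L := Real.log_pos (by linarith)
  have hh' : (1 : ℝ) ≤ h := by exact_mod_cast hh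
  have hb' : (1 : ℝ) ≤ b := by exact_mod_cast hb1
  have hbL : (b : ℝ) ≤ 3 * L := clog_le k hk
  set M := max (Real.log L) 0 with hM
  have hM0 : 0 ≤ M := le_max_right _ _
  have hsqrtM : √(h * L * Real.log L) = √(h * L * M) := by
    rcases le_or_gt 0 (Real.log L) with h1 | h1
    · rw [hM, max_eq_left h1]
    · rw [hM, max_eq_right h1.le, mul_zero, Real.sqrt_zero]
      apply Real.sqrt_eq_zero_of_nonpos
      nlinarith [mul_nonneg (by linarith : (0 : ℝ) ≤ h) hL0.le]
  have hlogb : Real.log b ≤ M + 1.2 := by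
    have h1 : Real.log b ≤ Real.log (3 * L) := Real.log_le_log (by linarith) hbL
    rw [Real.log_mul (by norm_num) hL0.ne'] at h1
    have h3 : Real.log 3 ≤ 1.2 := by
      have h4 : Real.log 3 ≤ Real.log (Real.exp 1.2) := by
        apply Real.log_le_log (by norm_num)
        have h5 : (3 : ℝ) ≤ Real.exp 1.2 := by
          have h6 : Real.exp 1.2 = Real.exp 1 * Real.exp 0.2 := by
            rw [← Real.exp_add]; norm_num
          have h7 : (2.7182818283 : ℝ) < Real.exp 1 := Real.exp_one_gt_d9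
          have h8 : (0.2 : ℝ) + 1 ≤ Real.exp 0.2 := Real.add_one_le_exp _
          rw [h6]
          nlinarith
        exact h5
      rwa [Real.log_exp] at h4
    have h5 : Real.log L ≤ M := le_max_left _ _
    linarith
  have hlogb0 : 0 ≤ Real.log b := Real.log_nonneg hb'
  have hroot : √(h * b * Real.log b) ≤ 2 * √(h * L * M) + (h + L) := by
    apply sqrt_bound _ _ _ _ (by linarith) hL0.le hM0
    have e1 : (h : ℝ) * b * Real.log b ≤ h * (3 * L) * (M + 1.2) := by
      have hh0 : (0 : ℝ) ≤ h := by linarith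
      apply mul_le_mul _ hlogb hlogb0 (by positivity)
      exact mul_le_mul_of_nonneg_left hbL hh0
    have e2 : (0 : ℝ) ≤ h * L := by positivity
    nlinarith
  have hX : (0 : ℝ) ≤ h + b + √(h * b * Real.log b) := by positivity
  have hS2 : (S : ℝ) ≤ 4 * |C| * (h + L + √(h * L * M)) := by
    have e1 : (S : ℝ) ≤ |C| * (h + b + √(h * b * Real.log b)) :=
      hS.trans (mul_le_mul_of_nonneg_right (le_abs_self C) hX)
    have e2 : (h : ℝ) + b + √(h * b * Real.log b) ≤ 4 * (h + L + √(h * L * M)) := by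
      have := Real.sqrt_nonneg (h * L * M)
      nlinarith
    calc (S : ℝ) ≤ |C| * (h + b + √(h * b * Real.log b)) := e1
      _ ≤ |C| * (4 * (h + L + √(h * L * M))) := mul_le_mul_of_nonneg_left e2 (abs_nonneg C)
      _ = _ := by ring
  rw [hsqrtM]
  set R := √(h * L * M) with hR
  have hR0 : 0 ≤ R := Real.sqrt_nonneg _
  -- the sum
  have hkexp : (k : ℝ) = Real.exp L := (Real.exp_log (by linarith)).symm
  have h5 : (5 : ℝ) ^ h ≤ Real.exp (2 * h) := by
    have e1 : (5 : ℝ) ≤ Real.exp 2 := by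
      have h6 : Real.exp 2 = Real.exp 1 * Real.exp 1 := by
        rw [← Real.exp_add]; norm_num
      have h7 : (2.7182818283 : ℝ) < Real.exp 1 := Real.exp_one_gt_d9
      rw [h6]
      nlinarith
    calc (5 : ℝ) ^ h ≤ (Real.exp 2) ^ h := pow_le_pow_left₀ (by norm_num) e1 h
      _ = Real.exp (2 * h) := by rw [← Real.exp_nat_mul, mul_comm]
  have h2S : ((2 : ℝ) ^ S) ^ 3 ≤ Real.exp (3 * S) := by
    have e1 : (2 : ℝ) ≤ Real.exp 1 := by
      have h7 : (2.7182818283 : ℝ) < Real.exp 1 := Real.exp_one_gt_d9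
      linarith
    calc ((2 : ℝ) ^ S) ^ 3 ≤ ((Real.exp 1) ^ S) ^ 3 := by gcongr
      _ = Real.exp (3 * S) := by
        rw [← Real.exp_nat_mul, ← Real.exp_nat_mul]
        congr 1
        push_cast
        ring
  have hbig : (k : ℝ) * 5 ^ h * ((2 : ℝ) ^ S) ^ 3 * k ^ 2 ≤
      Real.exp (3 * L + 2 * h + 3 * S) := by
    have e1 : (k : ℝ) * 5 ^ h * ((2 : ℝ) ^ S) ^ 3 * k ^ 2 ≤
        Real.exp L * Real.exp (2 * h) * Real.exp (3 * S) * (Real.exp L) ^ 2 := by
      rw [← hkexp]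
      gcongr
    refine e1.trans (le_of_eq ?_)
    rw [← Real.exp_nat_mul, ← Real.exp_add, ← Real.exp_add, ← Real.exp_add]
    congr 1
    push_cast
    ring
  have hS0 : (0 : ℝ) ≤ S := Nat.cast_nonneg _
  have h1 : (1 : ℝ) ≤ Real.exp (3 * L + 2 * h + 3 * S) := by
    apply Real.one_le_exp
    positivity
  have hk1 : (k : ℝ) ≤ Real.exp (3 * L + 2 * h + 3 * S) := by
    rw [hkexp]
    apply Real.exp_le_exp.2
    nlinarith
  have h3 : (3 : ℝ) ≤ Real.exp 2 := by
    have := Real.add_one_le_exp (2 : ℝ)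
    linarith
  have hfin : ((1 + k + k * 5 ^ h * (2 ^ S) ^ 3 * k ^ 2 : ℕ) : ℝ) ≤
      Real.exp 2 * Real.exp (3 * L + 2 * h + 3 * S) := by
    push_cast
    have e0 : 0 ≤ Real.exp (3 * L + 2 * h + 3 * S) := (Real.exp_pos _).le
    nlinarith
  refine hfin.trans ?_
  rw [← Real.exp_add]
  apply Real.exp_le_exp.2
  nlinarith [abs_nonneg C]

end Pool.Agent.Helper83.TE
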