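import Pool.Agent.Helper1.TE.Goals

/-!
PROJECT TE, packet TE-CL: linearity of the code.
-/

namespace Pool.Agent.Helper83.TE

open Pool.Agent.Helper1.TE
open Pool.Agent.Helper65.LinSpace (dig)
open Finset

theorem dig_xor (p q t : ℕ) : dig 2 (p ^^^ q) t = (dig 2 p t + dig 2 q t) % 2 := by
  have key : ∀ n : ℕ, dig 2 n t = (n.testBit t).toNat := by
    intro n
    unfold dig
    rw [Nat.testBit_eq_decide_div_mod_eq]
    have := Nat.mod_two_eq_zero_or_one (n / 2 ^ t)
    rcases this with h | h <;> rw [h] <;> simp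
  rw [key, key, key, Nat.testBit_xor]
  cases p.testBit t <;> cases q.testBit t <;> rfl

theorem gCL : GoalCL := by
  intro b a p q i
  unfold bitc
  rw [← Nat.add_mod, ← Finset.sum_add_distrib]
  have h : ∀ t ∈ range b, (dig 2 (p ^^^ q) t * (if t ≤ i then dig 2 a (i - t) else 0)) % 2 =
      (dig 2 p t * (if t ≤ i then dig 2 a (i - t) else 0) +
        dig 2 q t * (if t ≤ i then dig 2 a (i - t) else 0)) % 2 := by
    intro t _
    rw [dig_xor, ← add_mul, Nat.mod_mul_mod]
  rw [Finset.sum_nat_mod, Finset.sum_congr rfl h, ← Finset.sum_nat_mod]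

end Pool.Agent.Helper83.TE
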